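import Pool.Agent.KS6_52.DB.Dbl

set_option autoImplicit false

/-!
# The intervals between consecutive odd squares, with prime-free ends and middle, at `a u` and `c / u`, or at Fibonacci
numbers modulo `p`

`I_m` is the interval between `(2 m - 1)²` and `(2 m + 1)²`. Let `R(x) = log x (log₂ x)² log₄ x / (log₃ x)²` be the
record length of Ford, Green, Konyagin, Maynard and Tao. We find many pairs `m_0`, `m_1` of arithmetic origin for which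
no prime lies within `D`, of the size of `R`, of the two ends `(2 m - 1)²`, `(2 m + 1)²` and of the middle `(2 m)²` of
`I_m`, for `m = m_j, m_j + 1, ..., m_j + J - 1`, `D J ≤ κ R(p)`, `J² ≤ κ log p`.  The pairs are in given intervals
`[A_j, A_j + N_j)` of `[0, p)`, and we find at least `N_0 N_1 t p^(-2 - ε)` of

1. the points `x_k`, `k < t`, of the orbit `x_(k+1) = M x_k` of a matrix `M` of determinant one and order `t` modulo `p`;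
2. the pairs `(a u, c / u)`, `u` in a subgroup of order `t` of the multiplicative group modulo `p`;
3. the pairs `(F_n, F_(n+1))` of consecutive Fibonacci numbers modulo `p`, `t` their period,

as soon as `(N_0 N_1)⁴ t³ ≥ p^(10 + ε)`; for whole intervals this is `t ≥ p^(2/3 + ε')`.  These follow from a general
theorem: if `Ω` is mapped onto itself by affine maps such that every nonzero functional has at least `T` images under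
products of the linear parts, and `E` is the additive energy of `Ω`, the condition is
`(∏ N_j)⁴ |Ω|⁴ T ≥ p^(5 r + ε) E`.

Proof (`Pool.Agent.KS6_52.RG`, `Pool.Agent.KS6_52.SQ`, `Pool.Agent.KS6_52.DB`): the orbits lie on nondegenerate conics
and have energy at most `3 t²`; the modulus of the Fourier transform is constant on the orbits of the functionals, and
the fourth moment bounds it.  The covering sieve for the polynomials `(X + h)² + a` of the starting library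
(`Pool.Agent.N542.PV.rect_vec`) is applied to the vectors `2 x - 2 - ε`, `ε ∈ {0, 1}^r`.
-/

namespace Pool.Agent.Results.MP_3a3367_nt.EndsAtInverses

open Finset Matrix Filter
open Pool.Agent.KS6_51.INVS
open Pool.Agent.KS6_52.DB
open Pool.Agent.W147.PS (ff)
open Pool.Agent.N542.PV (AdmSq AdmSq_mono iso_of_good ev_ff ev_adm)

/-- the record length `R(x) = log x (log₂ x) ^ 2 log₄ x / (log₃ x) ^ 2` -/
noncomputable def R (x : ℝ) : ℝ :=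
  Real.log x * (Real.log (Real.log x)) ^ 2 * Real.log (Real.log (Real.log (Real.log x))) /
    (Real.log (Real.log (Real.log x))) ^ 2

/-- the intervals `[A j, A j + N j)` are in `[0, p)` and have length at least `p ^ ε` -/
def Boxes {r : ℕ} (ε : ℝ) (p : ℕ) (A N : Fin r → ℕ) : Prop := ∀ j, A j + N j ≤ p ∧ (p : ℝ) ^ ε ≤ N j

/-- no prime lies within `D` of the ends `(2 m - 1)²`, `(2 m + 1)²` and of the middle `(2 m)²` of `I_m` -/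
def EndsAndMiddle (D m : ℕ) : Prop :=
  ∀ c : ℤ, |c| ≤ 1 → ∀ q : ℕ, q.Prime → (D : ℤ) < |(q : ℤ) - (2 * (m : ℤ) + c) ^ 2|

/-- `m` is in the `j`-th interval, and if `m > z` then `m, m + 1, ..., m + J - 1` have the property `EndsAndMiddle` -/
def Hit {r : ℕ} (D J : ℕ) (z : ℝ) (A N : Fin r → ℕ) (j : Fin r) (m : ℕ) : Prop :=
  (A j ≤ m ∧ m < A j + N j) ∧ (z < m → ∀ i < J, EndsAndMiddle D (m + i))

/-- every set of row vectors which contains a nonzero vector and is closed under `h ↦ h M`, `(M, b) ∈ Γ`, has at least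
`T` elements -/
def LargeOrbits {p r : ℕ} (Γ : Set (Matrix (Fin r) (Fin r) (ZMod p) × (Fin r → ZMod p))) (T : ℝ) : Prop :=
  ∀ H : Finset (Fin r → ZMod p), (∃ h ∈ H, h ≠ 0) → (∀ γ ∈ Γ, ∀ h ∈ H, h ᵥ* γ.1 ∈ H) → T ≤ H.card

/-- the additive energy: the number of `(u, v, w, z)` in `Ω⁴` with `u + v = w + z` -/
def energy {p r : ℕ} (Ω : Finset (Fin r → ZMod p)) : ℕ :=
  (((Ω ×ˢ Ω) ×ˢ (Ω ×ˢ Ω)).filter fun q => q.1.1 + q.1.2 = q.2.1 + q.2.2).card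

/-- what is needed of a large prime -/
lemma tools (b : ℕ) (κ cc ε : ℝ) (hκ0 : 0 < κ) (hcc : 0 < cc) (hε : 0 < ε) :
    ∃ p₁ : ℕ, ∀ p : ℕ, p₁ ≤ p → p.Prime →
      (∀ D J : ℕ, 1 ≤ J → (J : ℝ) ^ 2 ≤ min κ 1 / 25 * Real.log p → (D : ℝ) * J ≤ min κ 1 / 25 * R p →
        ∀ x : ℕ, x < p → Dbl (Qsq b (ε / 2)) (D, Ico (0 : ℤ) ((2 * J + 3 : ℕ) : ℤ)) κ p x →
        ((p : ℝ) ^ ε < x → ∀ i < J, EndsAndMiddle D (x + i))) ∧
      ∀ (V : ℝ) (a : ℕ), 0 ≤ V → V * (p : ℝ) ^ (-(a : ℝ) - ε) ≤ cc * (V / (p : ℝ) ^ a) * (p : ℝ) ^ (-(ε / 2)) := by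
  have hT : Tendsto (fun p : ℕ => (p : ℝ)) atTop atTop := tendsto_natCast_atTop_atTop
  obtain ⟨p₁, h⟩ := ((hT.eventually ev_ff).and ((hT.eventually
    (ev_adm (min κ 1) b (min_le_right _ _) (ε / 2) (by positivity))).and
    (hT.eventually ((tendsto_rpow_atTop (show (0 : ℝ) < ε / 2 by positivity)).eventually_ge_atTop
      (1 / cc))))).exists_forall_of_atTop
  refine ⟨max p₁ 2, fun p hp hpp => ?_⟩
  obtain ⟨hff, hadm, hbig⟩ := h p ((le_max_left _ _).trans hp)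
  obtain ⟨hL, hl0, hlL, hR0, hR⟩ := hff
  have hp0 : (0 : ℝ) < p := by exact_mod_cast hpp.pos
  have hp1 : (1 : ℝ) ≤ p := by exact_mod_cast hpp.one_lt.le
  refine ⟨?_, ?_⟩
  · intro D J hJ1 hJ hDJ x _ hx hbx i hi c hc q hq
    obtain ⟨b', hQ⟩ := hx
    have hJr : (1 : ℝ) ≤ J := by exact_mod_cast hJ1
    have hm0 : 0 < min κ 1 := lt_min hκ0 one_pos
    have hA1 : AdmSq (min κ 1) b (Real.log p) (Real.log (Real.log p)) (ff p) D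
        (Ico (0 : ℤ) ((2 * J + 3 : ℕ) : ℤ)) := by
      refine Or.inr ⟨2 * J + 3, rfl, ?_, Or.inr ?_⟩
      · push_cast
        have : (2 * (J : ℝ) + 3) ^ 2 ≤ 25 * (J : ℝ) ^ 2 := by nlinarith
        linarith
      · push_cast
        have hD0 : (0 : ℝ) ≤ D := Nat.cast_nonneg D
        have h1 : (D : ℝ) * (2 * J + 3) ≤ 5 * (D * J) := by nlinarith
        have h2 : (0 : ℝ) ≤ D * J := by positivity
        have h3 : min κ 1 / 25 * R p * 25 = min κ 1 * ff p := by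
          have : R p = ff p := rfl
          rw [this]; ring
        linarith
    have hb' : (b' : ℕ) < 2 := b'.isLt
    obtain ⟨c1, c2⟩ := abs_le.1 hc
    have hk : (2 * (i : ℤ) + c + 2 + ((b' : ℕ) : ℤ)) ∈ Ico (0 : ℤ) ((2 * J + 3 : ℕ) : ℤ) := by
      rw [mem_Ico]
      push_cast
      constructor <;> omega
    have e1 : (2 * (x : ℤ) - 2 - ((b' : ℕ) : ℤ)) + (2 * (i : ℤ) + c + 2 + ((b' : ℕ) : ℤ)) =
        2 * (((x + i : ℕ)) : ℤ) + c := by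
      push_cast
      ring
    have h0 := iso_of_good (u := 2 * (((x + i : ℕ)) : ℤ) + c) (hadm D _ ⟨_, hk⟩ hA1) ?_
      (fun a ha hsq => ?_) q hq
    · exact h0
    · have hx1 : (1 : ℝ) ≤ (p : ℝ) ^ ε := Real.one_le_rpow hp1 hε.le
      have hpe : (p : ℝ) ^ (ε / 2) ≤ (p : ℝ) ^ ε := Real.rpow_le_rpow_of_exponent_le hp1 (by linarith)
      have hc1 : (-1 : ℝ) ≤ c := by exact_mod_cast c1
      have hi0 : (0 : ℝ) ≤ i := Nat.cast_nonneg i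
      have hge : (x : ℝ) ≤ ((2 * (((x + i : ℕ)) : ℤ) + c : ℤ) : ℝ) := by
        push_cast
        linarith
      exact lt_of_lt_of_le (lt_of_le_of_lt hpe (lt_of_lt_of_le hbx hge)) (le_abs_self _)
    · have := hQ (AdmSq_mono (min_le_left _ _) (by linarith) hl0 hR0 hA1) _ hk a ha hsq
      rwa [e1] at this
  · intro V a hV
    have e1 : (p : ℝ) ^ (-(a : ℝ) - ε) = ((p : ℝ) ^ a)⁻¹ * ((p : ℝ) ^ (-(ε / 2)) * (p : ℝ) ^ (-(ε / 2))) := by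
      rw [← Real.rpow_natCast, ← Real.rpow_neg hp0.le, ← Real.rpow_add hp0, ← Real.rpow_add hp0]
      congr 1
      ring
    have e2 : (p : ℝ) ^ (-(ε / 2)) ≤ cc := by
      rw [Real.rpow_neg hp0.le]
      rw [div_le_iff₀ hcc] at hbig
      rw [inv_le_iff_one_le_mul₀ (by positivity)]
      linarith
    rw [e1]
    calc V * (((p : ℝ) ^ a)⁻¹ * ((p : ℝ) ^ (-(ε / 2)) * (p : ℝ) ^ (-(ε / 2)))) =
        (V * ((p : ℝ) ^ a)⁻¹ * (p : ℝ) ^ (-(ε / 2))) * (p : ℝ) ^ (-(ε / 2)) := by ring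
      _ ≤ (V * ((p : ℝ) ^ a)⁻¹ * (p : ℝ) ^ (-(ε / 2))) * cc :=
          mul_le_mul_of_nonneg_left e2 (by positivity)
      _ = _ := by rw [div_eq_mul_inv]; ring

/-- **Prime-free ends and middle of `I_m` at inverses, orbits of matrices of determinant one and Fibonacci numbers.** -/
theorem result :
    (∀ r : ℕ, ∀ ε : ℝ, 0 < ε → ε ≤ 1 → ∃ κ : ℝ, 0 < κ ∧ ∃ p₀ : ℕ, ∀ p : ℕ, p₀ ≤ p → ∀ [Fact p.Prime],
      ∀ D J : ℕ, 1 ≤ J → (J : ℝ) ^ 2 ≤ κ * Real.log p → (D : ℝ) * J ≤ κ * R p →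
      ∀ (Γ : Set (Matrix (Fin r) (Fin r) (ZMod p) × (Fin r → ZMod p))) (T : ℝ), LargeOrbits Γ T →
      ∀ Ω : Finset (Fin r → ZMod p), (∀ γ ∈ Γ, Set.BijOn (fun v => γ.1 *ᵥ v + γ.2) Ω Ω) →
      ∀ A N : Fin r → ℕ, Boxes ε p A N →
        (p : ℝ) ^ (5 * (r : ℝ) + ε) * energy Ω ≤ ((∏ j, (N j : ℝ)) * Ω.card) ^ 4 * T →
        ∃ G : Finset (Fin r → ZMod p), (∏ j, (N j : ℝ)) * Ω.card * (p : ℝ) ^ (-(r : ℝ) - ε) ≤ G.card ∧
          ∀ v ∈ G, v ∈ Ω ∧ ∀ j, Hit D J ((p : ℝ) ^ ε) A N j (v j).val) ∧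
    (∀ ε : ℝ, 0 < ε → ε ≤ 1 → ∃ κ : ℝ, 0 < κ ∧ ∃ p₀ : ℕ, ∀ p : ℕ, p₀ ≤ p → ∀ [Fact p.Prime],
      ∀ D J : ℕ, 1 ≤ J → (J : ℝ) ^ 2 ≤ κ * Real.log p → (D : ℝ) * J ≤ κ * R p →
      ∀ M : Matrix (Fin 2) (Fin 2) (ZMod p), M.det = 1 → M.trace ^ 2 ≠ 4 →
      ∀ x : ℕ → Fin 2 → ZMod p, (∀ k, x (k + 1) = M *ᵥ x k) → x 0 0 * x 1 1 ≠ x 0 1 * x 1 0 →
      ∀ A N : Fin 2 → ℕ, Boxes ε p A N →
        (p : ℝ) ^ (10 + ε) ≤ (∏ j, (N j : ℝ)) ^ 4 * (orderOf M : ℝ) ^ 3 →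
        ∃ G : Finset ℕ, (∏ j, (N j : ℝ)) * orderOf M * (p : ℝ) ^ (-2 - ε) ≤ G.card ∧
          ∀ k ∈ G, k < orderOf M ∧ ∀ j, Hit D J ((p : ℝ) ^ ε) A N j (x k j).val) ∧
    (∀ ε : ℝ, 0 < ε → ε ≤ 1 → ∃ κ : ℝ, 0 < κ ∧ ∃ p₀ : ℕ, ∀ p : ℕ, p₀ ≤ p → ∀ [Fact p.Prime],
      ∀ D J : ℕ, 1 ≤ J → (J : ℝ) ^ 2 ≤ κ * Real.log p → (D : ℝ) * J ≤ κ * R p →
      ∀ (H : Subgroup (ZMod p)ˣ) (a c : (ZMod p)ˣ) (A N : Fin 2 → ℕ), Boxes ε p A N →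
        (p : ℝ) ^ (10 + ε) ≤ (∏ j, (N j : ℝ)) ^ 4 * (Nat.card H : ℝ) ^ 3 →
        ∃ G : Finset (ZMod p)ˣ, (∏ j, (N j : ℝ)) * Nat.card H * (p : ℝ) ^ (-2 - ε) ≤ G.card ∧
          ∀ u ∈ G, u ∈ H ∧ Hit D J ((p : ℝ) ^ ε) A N 0 ((a * u : (ZMod p)ˣ) : ZMod p).val ∧
            Hit D J ((p : ℝ) ^ ε) A N 1 ((c * u⁻¹ : (ZMod p)ˣ) : ZMod p).val) ∧
    (∀ ε : ℝ, 0 < ε → ε ≤ 1 → ∃ κ : ℝ, 0 < κ ∧ ∃ p₀ : ℕ, ∀ p : ℕ, p₀ ≤ p → p.Prime →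
      ∀ D J : ℕ, 1 ≤ J → (J : ℝ) ^ 2 ≤ κ * Real.log p → (D : ℝ) * J ≤ κ * R p →
      ∀ t : ℕ, IsLeast {m : ℕ | 0 < m ∧ p ∣ Nat.fib m ∧ Nat.fib (m + 1) ≡ 1 [MOD p]} t →
      ∀ A N : Fin 2 → ℕ, Boxes ε p A N → (p : ℝ) ^ (10 + ε) ≤ (∏ j, (N j : ℝ)) ^ 4 * (t : ℝ) ^ 3 →
        ∃ G : Finset ℕ, (∏ j, (N j : ℝ)) * t * (p : ℝ) ^ (-2 - ε) ≤ G.card ∧
          ∀ n ∈ G, n < 2 * t ∧ Hit D J ((p : ℝ) ^ ε) A N 0 (Nat.fib n % p) ∧
            Hit D J ((p : ℝ) ^ ε) A N 1 (Nat.fib (n + 1) % p)) := by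
  refine ⟨?_, ?_, ?_, ?_⟩
  · intro r ε h0 h1
    obtain ⟨κ, hκ, cc, hcc, p₀, h⟩ := Pool.Agent.KS6_52.SQ.invC (Dbl (Qsq 0 (ε / 2))) (fun M => M ^ (-(ε / 2))) r
      (csDbl _ _ r (csSq 0 (ε / 2) (by positivity) r)) ε h0 h1
    obtain ⟨p₁, ht⟩ := tools 0 κ cc ε hκ hcc h0
    refine ⟨min κ 1 / 25, div_pos (lt_min hκ one_pos) (by norm_num), max p₀ p₁, ?_⟩
    intro p hp hpF D J hJ1 hJ hDJ Γ T hT Ω hΩ A N hAN hW
    obtain ⟨t1, t2⟩ := ht p ((le_max_right _ _).trans hp) hpF.out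
    obtain ⟨G, g1, g2⟩ := h p ((le_max_left _ _).trans hp) (D, Ico (0 : ℤ) ((2 * J + 3 : ℕ) : ℤ)) _ (t1 D J hJ1 hJ hDJ) Γ T hT Ω hΩ A N hAN hW
    exact ⟨G, (t2 _ r (by positivity)).trans g1, g2⟩
  · intro ε h0 h1
    obtain ⟨κ, hκ, cc, hcc, p₀, h⟩ := Pool.Agent.KS6_52.SQ.sl2C (Dbl (Qsq 0 (ε / 2))) (fun M => M ^ (-(ε / 2)))
      (csDbl _ _ 2 (csSq 0 (ε / 2) (by positivity) 2)) ε h0 h1
    obtain ⟨p₁, ht⟩ := tools 0 κ cc ε hκ hcc h0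
    refine ⟨min κ 1 / 25, div_pos (lt_min hκ one_pos) (by norm_num), max p₀ p₁, ?_⟩
    intro p hp hpF D J hJ1 hJ hDJ M hM htr x hx hx0 A N hAN hW
    obtain ⟨t1, t2⟩ := ht p ((le_max_right _ _).trans hp) hpF.out
    obtain ⟨G, g1, g2⟩ := (h p ((le_max_left _ _).trans hp)).2 (D, Ico (0 : ℤ) ((2 * J + 3 : ℕ) : ℤ)) _ (t1 D J hJ1 hJ hDJ) M hM htr x hx hx0 A N hAN hW
    have t3 := t2 ((∏ j, (N j : ℝ)) * orderOf M) 2 (by positivity)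
    push_cast at t3
    exact ⟨G, t3.trans g1, g2⟩
  · intro ε h0 h1
    obtain ⟨κ, hκ, cc, hcc, p₀, h⟩ := Pool.Agent.KS6_52.SQ.inversesC (Dbl (Qsq 0 (ε / 2))) (fun M => M ^ (-(ε / 2)))
      (csDbl _ _ 2 (csSq 0 (ε / 2) (by positivity) 2)) ε h0 h1
    obtain ⟨p₁, ht⟩ := tools 0 κ cc ε hκ hcc h0
    refine ⟨min κ 1 / 25, div_pos (lt_min hκ one_pos) (by norm_num), max p₀ p₁, ?_⟩
    intro p hp hpF D J hJ1 hJ hDJ H a c A N hAN hW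
    obtain ⟨t1, t2⟩ := ht p ((le_max_right _ _).trans hp) hpF.out
    obtain ⟨G, g1, g2⟩ := h p ((le_max_left _ _).trans hp) (D, Ico (0 : ℤ) ((2 * J + 3 : ℕ) : ℤ)) _ (t1 D J hJ1 hJ hDJ) H a c A N hAN hW
    have t3 := t2 ((∏ j, (N j : ℝ)) * Nat.card H) 2 (by positivity)
    push_cast at t3
    refine ⟨G, t3.trans g1, fun u hu => ?_⟩
    obtain ⟨h2, h3, h4, h5, h6⟩ := g2 u hu
    exact ⟨h2, ⟨h3, h5⟩, ⟨h4, h6⟩⟩
  · intro ε h0 h1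
    obtain ⟨κ, hκ, cc, hcc, p₀, h⟩ := Pool.Agent.KS6_52.SQ.fibonacciC (Dbl (Qsq 0 (ε / 2))) (fun M => M ^ (-(ε / 2)))
      (csDbl _ _ 2 (csSq 0 (ε / 2) (by positivity) 2)) ε h0 h1
    obtain ⟨p₁, ht⟩ := tools 0 κ cc ε hκ hcc h0
    refine ⟨min κ 1 / 25, div_pos (lt_min hκ one_pos) (by norm_num), max p₀ p₁, ?_⟩
    intro p hp hpp D J hJ1 hJ hDJ t hlt A N hAN hW
    obtain ⟨t1, t2⟩ := ht p ((le_max_right _ _).trans hp) hpp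
    obtain ⟨G, g1, g2⟩ := h p ((le_max_left _ _).trans hp) hpp (D, Ico (0 : ℤ) ((2 * J + 3 : ℕ) : ℤ)) _ (t1 D J hJ1 hJ hDJ) t hlt A N hAN hW
    have t3 := t2 ((∏ j, (N j : ℝ)) * t) 2 (by positivity)
    push_cast at t3
    refine ⟨G, t3.trans g1, fun n hn => ?_⟩
    obtain ⟨h2, h3, h4, h5, h6⟩ := g2 n hn
    exact ⟨h2, ⟨h3, h5⟩, ⟨h4, h6⟩⟩

end Pool.Agent.Results.MP_3a3367_nt.EndsAtInverses
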