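import Pool.Agent.KS6_51.INVC.Fam

set_option autoImplicit false

/-!
# Symmetric almost primes between consecutive odd squares, at offsets from invariant sets modulo `p`

`I_k` is the interval between `(2 k - 1)²` and `(2 k + 1)²`, of length `8 k`.  We consider pairs
`(2 k - 1)² + m + x`, `(2 k + 1)² - m - x` of numbers which are symmetric in `I_k`; the offset `x` is in an interval
`[0, p)`, `p` a prime with `m + p ≤ 8 k`, which can be as short as any fixed power of `k`.  Let `Ω` be an ARBITRARY set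
of vectors modulo `p` with `r` coordinates which is mapped onto itself by some affine maps, such that every nonzero
linear functional has at least `T` images under (products of) the linear parts.  If
`(∏ N_j)² |Ω| T ≥ p^(3r + ε)` then the number of the vectors in `Ω` with the least residues `x_j` of all `r`
coordinates in given intervals `[A_j, A_j + N_j)`, and such that for each of the `r` offsets `x_j` both numbers of the
pair have at most `R` prime factors, all larger than `p^κ`, is at least a constant times the expected number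
`(∏ N_j) |Ω| p^(-r) (log p)^(-2r)`.

Three cases:

* affine groups, in the form above;
* sets of elements of the field with `p^r` elements which are closed under the multiplication with a subgroup `U` of
  its multiplicative group, coordinates with respect to any basis, `T = |U|` (for instance the elements whose norm is
  in an arbitrary set);
* sets of `k`-dimensional arrays (matrices, tensors) closed under the addition of multiples of slices to slices in the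
  directions of a set `D`, `T = p^(1 + ∑_{j ∈ D} (n_j - 1))` (for instance the matrices with determinant in an
  arbitrary set).

Proof (`Pool.Agent.KS6_51.INV`, `Pool.Agent.KS6_51.INVC`).  The modulus of the Fourier transform of `Ω` is constant on
the orbits of the functionals, and Parseval's identity bounds it.  The rest is the fundamental lemma of the sieve for
vectors of integers in the form of the starting library (`Pool.Agent.Q46.SL`, `Pool.Agent.Q20.RG.primeC`).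
-/

namespace Pool.Agent.Results.MP_3a3367_nt.InvariantOffsets

open Finset Matrix Module Polynomial
open Pool.Agent.Q46.SL hiding Almost
open Pool.Agent.KS6_51.INVC hiding Count

/-- `n` is not zero and has at most `R` prime factors (counted with multiplicity), all larger than `z` -/
def Almost (z : ℝ) (R : ℕ) (n : ℤ) : Prop :=
  n ≠ 0 ∧ n.natAbs.primeFactorsList.length ≤ R ∧ ∀ q : ℕ, q.Prime → (q : ℤ) ∣ n → z < q

/-- `n` is between `(2 k - 1)²` and `(2 k + 1)²` -/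
def Between (k : ℕ) (n : ℤ) : Prop := (2 * (k : ℤ) - 1) ^ 2 < n ∧ n < (2 * (k : ℤ) + 1) ^ 2

/-- both `(2 k - 1)² + m + x` and its mirror image `(2 k + 1)² - m - x` are in `I_k`, and they have at most `R` prime
factors, all larger than `z` -/
def Pair (k m : ℕ) (z : ℝ) (R : ℕ) (x : ℕ) : Prop :=
  (Between k ((2 * (k : ℤ) - 1) ^ 2 + m + x) ∧ Almost z R ((2 * (k : ℤ) - 1) ^ 2 + m + x)) ∧
    (Between k ((2 * (k : ℤ) + 1) ^ 2 - m - x) ∧ Almost z R ((2 * (k : ℤ) + 1) ^ 2 - m - x))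

/-- the number of the `v` in `Ω` all of whose coordinates `c v j` have their least residue in `[A j, A j + N j)` and
with the property `P` -/
noncomputable def Count {V J : Type} {p : ℕ} (Ω : Finset V) (c : V → J → ZMod p) (A N : J → ℕ) (P : ℕ → Prop) : ℕ :=
  {v : V | v ∈ Ω ∧ ∀ j, (A j ≤ (c v j).val ∧ (c v j).val < A j + N j) ∧ P (c v j).val}.ncard

/-- the intervals `[A j, A j + N j)` are in `[0, p)` and have length at least `p ^ ε` -/
def Boxes {J : Type} (ε : ℝ) (p : ℕ) (A N : J → ℕ) : Prop := ∀ j, A j + N j ≤ p ∧ (p : ℝ) ^ ε ≤ N j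

/-- every set of row vectors which contains a nonzero vector and is closed under `h ↦ h M`, `(M, b) ∈ Γ`, has at least
`T` elements -/
def LargeOrbits {p r : ℕ} (Γ : Set (Matrix (Fin r) (Fin r) (ZMod p) × (Fin r → ZMod p))) (T : ℝ) : Prop :=
  ∀ H : Finset (Fin r → ZMod p), (∃ h ∈ H, h ≠ 0) → (∀ γ ∈ Γ, ∀ h ∈ H, h ᵥ* γ.1 ∈ H) → T ≤ H.card

/-- the array `X` with `s` times the slice `i j = b` added to the slice `i j = a` -/
def addSlice {p k : ℕ} {n : Fin k → ℕ} (j : Fin k) (a b : Fin (n j)) (s : ZMod p)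
    (X : (∀ j, Fin (n j)) → ZMod p) : (∀ j, Fin (n j)) → ZMod p :=
  fun i => if i j = a then X i + s * X (Function.update i j b) else X i

lemma adm (c0 c1 : ℤ) (m : ℤ) (h0 : Odd (c0 + m)) (h1 : Odd (c1 - m)) (q : ℕ) (hq : q.Prime) :
    ∃ a < q, ¬ (q : ℤ) ∣ c0 + (a : ℤ) ∧ ¬ (q : ℤ) ∣ c1 - (a : ℤ) := by
  rcases hq.eq_two_or_odd' with rfl | hodd
  · obtain ⟨a, ha, hm⟩ : ∃ a : ℕ, a < 2 ∧ Even (m - a) := by
      rcases Int.even_or_odd m with h | h
      · exact ⟨0, by norm_num, by simpa using h⟩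
      · exact ⟨1, by norm_num, by
          obtain ⟨t, ht⟩ := h
          exact ⟨t, by push_cast; omega⟩⟩
    refine ⟨a, ha, ?_, ?_⟩
    · intro hd
      obtain ⟨t, ht⟩ := hm
      obtain ⟨s, hs⟩ := h0
      obtain ⟨u, hu⟩ := hd
      push_cast at hu
      omega
    · intro hd
      obtain ⟨t, ht⟩ := hm
      obtain ⟨s, hs⟩ := h1
      obtain ⟨u, hu⟩ := hd
      push_cast at hu
      omega
  · have h3 : 3 ≤ q := by
      have := hq.two_le
      have : q ≠ 2 := by rintro rfl; exact absurd hodd (by decide)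
      omega
    have hd1 : ¬ (q : ℤ) ∣ 1 := by
      intro h
      have := Int.le_of_dvd (by norm_num) h
      omega
    have hd2 : ¬ (q : ℤ) ∣ 2 := by
      intro h
      have := Int.le_of_dvd (by norm_num) h
      omega
    by_contra hcon
    push Not at hcon
    have g0 := hcon 0 (by omega)
    have g1 := hcon 1 (by omega)
    have g2 := hcon 2 (by omega)
    push_cast at g0 g1 g2
    by_cases a0 : (q : ℤ) ∣ c0 + 0
    · have b1 : ¬ (q : ℤ) ∣ c0 + 1 := fun h => hd1 (by have := dvd_sub h a0; ring_nf at this; simpa using this)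
      have b2 : ¬ (q : ℤ) ∣ c0 + 2 := fun h => hd2 (by have := dvd_sub h a0; ring_nf at this; simpa using this)
      exact hd1 (by have := dvd_sub (g1 b1) (g2 b2); ring_nf at this; simpa using this)
    · have e0 := g0 a0
      by_cases a1 : (q : ℤ) ∣ c0 + 1
      · have b2 : ¬ (q : ℤ) ∣ c0 + 2 := fun h => hd1 (by have := dvd_sub h a1; ring_nf at this; simpa using this)
        exact hd2 (by have := dvd_sub e0 (g2 b2); ring_nf at this; simpa using this)
      · exact hd1 (by have := dvd_sub e0 (g1 a1); ring_nf at this; simpa using this)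

lemma odd0 (k m : ℕ) : Odd ((2 * (k : ℤ) - 1) ^ 2 + m + (m : ℤ)) :=
  ⟨2 * k ^ 2 - 2 * k + m, by ring⟩

lemma odd1 (k m : ℕ) : Odd ((2 * (k : ℤ) + 1) ^ 2 - m - (m : ℤ)) :=
  ⟨2 * k ^ 2 + 2 * k - m, by ring⟩

/-- the two polynomials -/
noncomputable def sys (k m : ℕ) : PE 2 0 2 where
  f := ![C ((2 * (k : ℤ) - 1) ^ 2 + m) + X, C ((2 * (k : ℤ) + 1) ^ 2 - m) - X]
  E := fun _ => ∅
  deg := by
    rw [Fin.sum_univ_two]
    simp only [Matrix.cons_val]
    have d0 : (C ((2 * (k : ℤ) - 1) ^ 2 + m) + X : ℤ[X]).natDegree ≤ 1 := by compute_degree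
    have d1 : (C ((2 * (k : ℤ) + 1) ^ 2 - m) - X : ℤ[X]).natDegree ≤ 1 := by compute_degree
    omega
  adm := by
    intro q hq
    obtain ⟨a, ha, h1, h2⟩ := adm ((2 * (k : ℤ) - 1) ^ 2 + m) ((2 * (k : ℤ) + 1) ^ 2 - m) m (odd0 k m) (odd1 k m) q hq
    refine ⟨by simp, a, ha, by simp, fun j => ?_⟩
    fin_cases j
    · simpa using h1
    · simpa using h2

lemma pair_of (B p k m : ℕ) (hp2 : 2 ≤ p) (hmp : m + p ≤ 8 * k) (hkB : (k : ℝ) ≤ (p : ℝ) ^ B) (κ : ℝ) (x : ℕ)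
    (hx : x < p) (h : Near (2 * B + 4) (sys k m) κ p x) :
    Pair k m ((p : ℝ) ^ κ) ⌊(((2 * B + 4 : ℕ) : ℝ) + ((2 : ℕ) : ℝ) + 1) / κ⌋₊ x := by
  obtain ⟨h0, h12⟩ := h
  have hp2' : (2 : ℝ) ≤ p := by exact_mod_cast hp2
  have hP1 : (1 : ℝ) ≤ (p : ℝ) ^ B := one_le_pow₀ (by linarith)
  have hk1 : 1 ≤ k := by omega
  have hk1' : (1 : ℝ) ≤ k := by exact_mod_cast hk1
  have hk0 : (0 : ℝ) ≤ k := Nat.cast_nonneg k
  have hm8 : (m : ℝ) ≤ 8 * k := by exact_mod_cast (by omega : m ≤ 8 * k)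
  have hm0 : (0 : ℝ) ≤ m := Nat.cast_nonneg m
  have hbig : 16 * ((k : ℝ) ^ 2) ≤ (p : ℝ) ^ (2 * B + 4) := by
    rw [pow_add, pow_mul']
    have e1 : (16 : ℝ) ≤ (p : ℝ) ^ 4 := by
      calc (16 : ℝ) = 2 ^ 4 := by norm_num
        _ ≤ _ := pow_le_pow_left₀ (by norm_num) hp2' 4
    have e2 : (k : ℝ) ^ 2 ≤ ((p : ℝ) ^ B) ^ 2 := pow_le_pow_left₀ hk0 hkB 2
    nlinarith [sq_nonneg ((p : ℝ) ^ B)]
  obtain ⟨h1, -⟩ := h12 (by
    intro j
    fin_cases j
    · refine cb_mono (cb_add (cb_C _) cb_X) ?_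
      push_cast
      rw [abs_of_nonneg (by positivity)]
      nlinarith
    · refine cb_mono (cb_sub (cb_C _) cb_X) ?_
      push_cast
      have e3 : 0 ≤ (2 * (k : ℝ) + 1) ^ 2 - m := by nlinarith
      rw [abs_of_nonneg e3]
      nlinarith) (by exact_mod_cast hx.le)
  have hx0 : (0 : ℤ) < x := by exact_mod_cast h0
  have hxm : (m : ℤ) + x < 8 * k := by omega
  refine ⟨⟨⟨by omega, by nlinarith⟩, ?_⟩, ⟨⟨by nlinarith, by omega⟩, ?_⟩⟩
  · have := h1 0
    simpa [sys, Almost, Pool.Agent.Q46.SL.Almost] using this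
  · have := h1 1
    simpa [sys, Almost, Pool.Agent.Q46.SL.Almost] using this

/-- **Symmetric almost primes between consecutive odd squares at offsets from invariant sets.**

`p` is a prime and `m + p ≤ 8 k`, `k ≤ p ^ B` with a fixed `B`; `p` is large.

1. Sets `Ω` of vectors modulo `p` which are mapped onto themselves by the affine maps `v ↦ M v + b`, `(M, b) ∈ Γ`.

2. Sets `Ω` of elements of a field of degree `r` over the prime field, closed under the multiplication with the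
elements of a subgroup `U` of the multiplicative group; coordinates with respect to a basis.

3. Sets `Ω` of arrays of the format `n 0 × ... × n (d - 1)`, closed under the addition of multiples of slices to other
slices in the directions of `D`. -/
theorem result (B : ℕ) :
    (∀ r : ℕ, ∀ ε : ℝ, 0 < ε → ε ≤ 1 → ∃ κ : ℝ, 0 < κ ∧ ∃ cc : ℝ, 0 < cc ∧ ∃ R p₀ : ℕ,
      ∀ p : ℕ, p₀ ≤ p → ∀ [Fact p.Prime], ∀ k m : ℕ, m + p ≤ 8 * k → (k : ℝ) ≤ (p : ℝ) ^ B →
      ∀ (Γ : Set (Matrix (Fin r) (Fin r) (ZMod p) × (Fin r → ZMod p))) (T : ℝ), LargeOrbits Γ T →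
      ∀ Ω : Finset (Fin r → ZMod p), (∀ γ ∈ Γ, Set.BijOn (fun v => γ.1 *ᵥ v + γ.2) Ω Ω) →
      ∀ A N : Fin r → ℕ, Boxes ε p A N →
        (p : ℝ) ^ (3 * (r : ℝ) + ε) ≤ (∏ j, (N j : ℝ)) ^ 2 * Ω.card * T →
        cc * ((∏ j, (N j : ℝ)) * Ω.card / (p : ℝ) ^ r) / Real.log p ^ (2 * r) ≤
          Count Ω (fun v => v) A N (Pair k m ((p : ℝ) ^ κ) R)) ∧
    (∀ r : ℕ, ∀ ε : ℝ, 0 < ε → ε ≤ 1 → ∃ κ : ℝ, 0 < κ ∧ ∃ cc : ℝ, 0 < cc ∧ ∃ R p₀ : ℕ,
      ∀ p : ℕ, p₀ ≤ p → ∀ [Fact p.Prime], ∀ k m : ℕ, m + p ≤ 8 * k → (k : ℝ) ≤ (p : ℝ) ^ B →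
      ∀ (F : Type) [Field F] [Algebra (ZMod p) F] (b : Basis (Fin r) (ZMod p) F) (U : Subgroup Fˣ) (Ω : Finset F),
      (∀ u ∈ U, ∀ y ∈ Ω, (u : F) * y ∈ Ω) →
      ∀ A N : Fin r → ℕ, Boxes ε p A N →
        (p : ℝ) ^ (3 * (r : ℝ) + ε) ≤ (∏ j, (N j : ℝ)) ^ 2 * Ω.card * Nat.card U →
        cc * ((∏ j, (N j : ℝ)) * Ω.card / (p : ℝ) ^ r) / Real.log p ^ (2 * r) ≤
          Count Ω (fun y j => b.repr y j) A N (Pair k m ((p : ℝ) ^ κ) R)) ∧
    (∀ (d : ℕ) (n : Fin d → ℕ), (∀ j, 1 ≤ n j) → ∀ D : Finset (Fin d), (∃ j ∈ D, 2 ≤ n j) →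
      ∀ ε : ℝ, 0 < ε → ε ≤ 1 → ∃ κ : ℝ, 0 < κ ∧ ∃ cc : ℝ, 0 < cc ∧ ∃ R p₀ : ℕ,
      ∀ p : ℕ, p₀ ≤ p → ∀ [Fact p.Prime], ∀ k m : ℕ, m + p ≤ 8 * k → (k : ℝ) ≤ (p : ℝ) ^ B →
      ∀ Ω : Finset ((∀ j, Fin (n j)) → ZMod p),
      (∀ j ∈ D, ∀ a b : Fin (n j), a ≠ b → ∀ s : ZMod p, ∀ X ∈ Ω, addSlice j a b s X ∈ Ω) →
      ∀ A N : (∀ j, Fin (n j)) → ℕ, Boxes ε p A N →
        (p : ℝ) ^ (3 * (∏ j, (n j : ℝ)) - ∑ j ∈ D, ((n j : ℝ) - 1) - 1 + ε) ≤ (∏ i, (N i : ℝ)) ^ 2 * Ω.card →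
        cc * ((∏ i, (N i : ℝ)) * Ω.card / (p : ℝ) ^ (∏ j, n j)) / Real.log p ^ (2 * ∏ j, n j) ≤
          Count Ω (fun X => X) A N (Pair k m ((p : ℝ) ^ κ) R)) := by
  have hlg : ∀ (a p s : ℕ) (t : ℝ), t * lg 2 a p ≤ (s : ℝ) → t / Real.log p ^ (2 * a) ≤ s := by
    intro a p s t h
    rwa [lg, mul_one_div] at h
  refine ⟨?_, ?_, ?_⟩
  · intro r ε h0 h1
    obtain ⟨κ, hκ, cc, hcc, p₀, h⟩ := famA (Near (2 * B + 4) : PE 2 0 2 → ℝ → ℝ → ℤ → Prop)
      (lg (0 + 2)) (fun r => csN 2 0 2 (2 * B + 4) r) r ε h0 h1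
    refine ⟨κ, hκ, cc, hcc, ⌊(((2 * B + 4 : ℕ) : ℝ) + ((2 : ℕ) : ℝ) + 1) / κ⌋₊, max p₀ 2, ?_⟩
    intro p hp _ k m hmp hkB Γ T hT Ω hΩ A N hAN hW
    exact hlg _ _ _ _ (h p ((le_max_left _ _).trans hp) (sys k m) _
      (fun x hx hnear => pair_of B p k m ((le_max_right _ _).trans hp) hmp hkB κ x hx hnear) Γ T hT Ω hΩ A N hAN hW)
  · intro r ε h0 h1
    obtain ⟨κ, hκ, cc, hcc, p₀, h⟩ := famF (Near (2 * B + 4) : PE 2 0 2 → ℝ → ℝ → ℤ → Prop)
      (lg (0 + 2)) (fun r => csN 2 0 2 (2 * B + 4) r) r ε h0 h1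
    refine ⟨κ, hκ, cc, hcc, ⌊(((2 * B + 4 : ℕ) : ℝ) + ((2 : ℕ) : ℝ) + 1) / κ⌋₊, max p₀ 2, ?_⟩
    intro p hp _ k m hmp hkB F _ _ b U Ω hΩ A N hAN hW
    exact hlg _ _ _ _ (h p ((le_max_left _ _).trans hp) (sys k m) _
      (fun x hx hnear => pair_of B p k m ((le_max_right _ _).trans hp) hmp hkB κ x hx hnear) F b U Ω hΩ A N hAN hW)
  · intro d n hn D hD ε h0 h1
    obtain ⟨κ, hκ, cc, hcc, p₀, h⟩ := famT (Near (2 * B + 4) : PE 2 0 2 → ℝ → ℝ → ℤ → Prop)
      (lg (0 + 2)) (fun r => csN 2 0 2 (2 * B + 4) r) d n hn D hD ε h0 h1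
    refine ⟨κ, hκ, cc, hcc, ⌊(((2 * B + 4 : ℕ) : ℝ) + ((2 : ℕ) : ℝ) + 1) / κ⌋₊, max p₀ 2, ?_⟩
    intro p hp _ k m hmp hkB Ω hΩ A N hAN hW
    exact hlg _ _ _ _ (h p ((le_max_left _ _).trans hp) (sys k m) _
      (fun x hx hnear => pair_of B p k m ((le_max_right _ _).trans hp) hmp hkB κ x hx hnear) Ω hΩ A N hAN hW)

end Pool.Agent.Results.MP_3a3367_nt.InvariantOffsets
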